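import Pool.Agent.X297.ND.Basic

set_option autoImplicit false

/-!
# MP_a6de22_an, Q1: `nd(A) = ε(A) + 1` does not imply `nd(Ã) = ε(Ã) + 1`

Counterexamples: `n = 4` and weights `(β, β, α, β)` with any `0 < β < α`.  Put
`γ = √(α² - β²)`.

* `[A, A*] = diag(0, 0, γ², -γ²)`, so `ε(A) = 1`.  A normal completion of size `5` would have last
  column `b` and last row `c*` with `c c* - b b* = [A, A*]`; this forces `b₂ = c₂ = 0`, and then the
  second entry of the off-diagonal normality equation reads `β c₃ = 0`, against `|c₃|² ≥ γ²`.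
  An explicit completion of size `6` exists, so `nd(A) = 2`.
* `[Ã, Ã*] = diag(β², 0, γ², -γ², -β²)`, so `ε(Ã) = 2`, and an explicit completion of size `7`
  exists, so `nd(Ã) = 2 = ε(Ã)`.
-/

open Matrix Pool.Agent.X297.ND

namespace Pool.Agent.Results.MP_a6de22_an.NormalDefect

/-- The cyclic weighted shift: `A_{k,k+1} = a_k` for `1 ≤ k ≤ n-1`, `A_{n,1} = a_n`, all other
entries `0` (indices shifted to `0, …, n-1`). -/
def cyclicShift {n : ℕ} (a : Fin n → ℂ) : Matrix (Fin n) (Fin n) ℂ :=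
  fun i j => if i.val + 1 = j.val then a i else if i.val + 1 = n ∧ j.val = 0 then a i else 0

/-- The truncated weighted shift of size `n + 1`: `Ã_{k,k+1} = a_k` for `1 ≤ k ≤ n`, all other
entries `0` (indices shifted to `0, …, n`). -/
def truncatedShift {n : ℕ} (a : Fin n → ℂ) : Matrix (Fin (n + 1)) (Fin (n + 1)) ℂ :=
  fun i j => if h : i.val + 1 = j.val then a ⟨i.val, by omega⟩ else 0

/-- `N` is a normal matrix of size `m + k` whose leading principal `m × m` submatrix is `X`. -/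
def IsNormalCompletion {m k : ℕ} (X : Matrix (Fin m) (Fin m) ℂ)
    (N : Matrix (Fin (m + k)) (Fin (m + k)) ℂ) : Prop :=
  N * Nᴴ = Nᴴ * N ∧ ∀ i j : Fin m, N (Fin.castAdd k i) (Fin.castAdd k j) = X i j

/-- The normal defect: the least `k` such that `X` has a normal completion of size `m + k`. -/
noncomputable def nd {m : ℕ} (X : Matrix (Fin m) (Fin m) ℂ) : ℕ :=
  sInf {k : ℕ | ∃ N : Matrix (Fin (m + k)) (Fin (m + k)) ℂ, IsNormalCompletion X N}

/-- The self-commutator `X X* - X* X` is Hermitian. -/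
theorem selfComm_isHermitian {m : ℕ} (X : Matrix (Fin m) (Fin m) ℂ) :
    (X * Xᴴ - Xᴴ * X).IsHermitian := by
  unfold Matrix.IsHermitian
  simp [Matrix.conjTranspose_mul]

/-- `i₊` of the self-commutator of `X`: the number of its positive eigenvalues. -/
noncomputable def iPos {m : ℕ} (X : Matrix (Fin m) (Fin m) ℂ) : ℕ :=
  (Finset.univ.filter fun i => 0 < (selfComm_isHermitian X).eigenvalues i).card

/-- `i₋` of the self-commutator of `X`: the number of its negative eigenvalues. -/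
noncomputable def iNeg {m : ℕ} (X : Matrix (Fin m) (Fin m) ℂ) : ℕ :=
  (Finset.univ.filter fun i => (selfComm_isHermitian X).eigenvalues i < 0).card

/-- `ε(X) = max {i₊[X, X*], i₋[X, X*]}`. -/
noncomputable def eps {m : ℕ} (X : Matrix (Fin m) (Fin m) ℂ) : ℕ := max (iPos X) (iNeg X)

/-- The weights `(β, β, α, β)`. -/
noncomputable def wt (α β : ℝ) : Fin 4 → ℂ := fun i => (![β, β, α, β] i : ℝ)

theorem cyc_eq (α β : ℝ) : cyclicShift (wt α β)
    = (!![0, β, 0, 0; 0, 0, β, 0; 0, 0, 0, α; β, 0, 0, 0] : Matrix (Fin 4) (Fin 4) ℝ).map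
        Complex.ofReal := by
  ext i j
  fin_cases i <;> fin_cases j <;> rfl

theorem trunc_eq (α β : ℝ) : truncatedShift (wt α β)
    = (!![0, β, 0, 0, 0; 0, 0, β, 0, 0; 0, 0, 0, α, 0; 0, 0, 0, 0, β; 0, 0, 0, 0, 0] :
        Matrix (Fin 5) (Fin 5) ℝ).map Complex.ofReal := by
  ext i j
  fin_cases i <;> fin_cases j <;> rfl

theorem selfComm_cyc (α β : ℝ) :
    cyclicShift (wt α β) * (cyclicShift (wt α β))ᴴ - (cyclicShift (wt α β))ᴴ * cyclicShift (wt α β)
      = Matrix.diagonal fun i => ((![0, 0, α * α - β * β, -(α * α - β * β)] i : ℝ) : ℂ) := by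
  rw [cyc_eq]
  ext i j
  fin_cases i <;> fin_cases j <;>
    simp [Matrix.mul_apply, Fin.sum_univ_succ, Matrix.diagonal]

theorem selfComm_trunc (α β : ℝ) :
    truncatedShift (wt α β) * (truncatedShift (wt α β))ᴴ
        - (truncatedShift (wt α β))ᴴ * truncatedShift (wt α β)
      = Matrix.diagonal fun i =>
          ((![β * β, 0, α * α - β * β, -(α * α - β * β), -(β * β)] i : ℝ) : ℂ) := by
  rw [trunc_eq]
  ext i j
  fin_cases i <;> fin_cases j <;>
    simp [Matrix.mul_apply, Fin.sum_univ_succ, Matrix.diagonal]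

theorem eps_cyc (α β : ℝ) (hβ : 0 < β) (hαβ : β < α) : eps (cyclicShift (wt α β)) = 1 := by
  have hd : 0 < α * α - β * β := by nlinarith
  have h1 : iPos (cyclicShift (wt α β)) = 1 := by
    unfold iPos
    rw [count_eig _ (selfComm_isHermitian (cyclicShift (wt α β))) _ (selfComm_cyc α β)
      (fun x => 0 < x)]
    have : (Finset.univ.filter fun i : Fin 4 =>
        0 < (![0, 0, α * α - β * β, -(α * α - β * β)] i : ℝ)) = {2} := by
      ext i
      fin_cases i <;> simp <;> nlinarith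
    rw [this]
    rfl
  have h2 : iNeg (cyclicShift (wt α β)) = 1 := by
    unfold iNeg
    rw [count_eig _ (selfComm_isHermitian (cyclicShift (wt α β))) _ (selfComm_cyc α β)
      (fun x => x < 0)]
    have : (Finset.univ.filter fun i : Fin 4 =>
        (![0, 0, α * α - β * β, -(α * α - β * β)] i : ℝ) < 0) = {3} := by
      ext i
      fin_cases i <;> simp <;> nlinarith
    rw [this]
    rfl
  unfold eps
  rw [h1, h2]
  rfl

theorem eps_trunc (α β : ℝ) (hβ : 0 < β) (hαβ : β < α) :
    eps (truncatedShift (wt α β)) = 2 := by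
  have hd : 0 < α * α - β * β := by nlinarith
  have hb : 0 < β * β := by positivity
  have h1 : iPos (truncatedShift (wt α β)) = 2 := by
    unfold iPos
    rw [count_eig _ (selfComm_isHermitian (truncatedShift (wt α β))) _ (selfComm_trunc α β)
      (fun x => 0 < x)]
    have : (Finset.univ.filter fun i : Fin 5 =>
        0 < (![β * β, 0, α * α - β * β, -(α * α - β * β), -(β * β)] i : ℝ)) = {0, 2} := by
      ext i
      fin_cases i <;> simp <;> nlinarith
    rw [this]
    rfl
  have h2 : iNeg (truncatedShift (wt α β)) = 2 := by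
    unfold iNeg
    rw [count_eig _ (selfComm_isHermitian (truncatedShift (wt α β))) _ (selfComm_trunc α β)
      (fun x => x < 0)]
    have : (Finset.univ.filter fun i : Fin 5 =>
        (![β * β, 0, α * α - β * β, -(α * α - β * β), -(β * β)] i : ℝ) < 0) = {3, 4} := by
      ext i
      fin_cases i <;> simp <;> nlinarith
    rw [this]
    rfl
  unfold eps
  rw [h1, h2]
  rfl

/-- The completion of `A` of size `6`. -/
theorem cyc_completion (α β : ℝ) (hβ : 0 < β) (hαβ : β < α) :
    ∃ N : Matrix (Fin (4 + 2)) (Fin (4 + 2)) ℂ, IsNormalCompletion (cyclicShift (wt α β)) N := by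
  have hd : 0 < α * α - β * β := by nlinarith
  obtain ⟨γ, hγ0, hγ⟩ : ∃ γ : ℝ, 0 < γ ∧ γ * γ = α * α - β * β :=
    ⟨Real.sqrt (α * α - β * β), Real.sqrt_pos.2 hd, Real.mul_self_sqrt hd.le⟩
  refine ⟨(!![0, β, 0, 0, γ, 0; 0, 0, β, 0, 0, 0; 0, 0, 0, α, 0, 0; β, 0, 0, 0, 0, γ;
    0, 0, γ, 0, 0, 0; γ, 0, 0, 0, 0, -β] : Matrix (Fin 6) (Fin 6) ℝ).map Complex.ofReal,
    normal_of_real _ ?_, ?_⟩
  · ext i j
    fin_cases i <;> fin_cases j <;>
      simp [Matrix.mul_apply, Fin.sum_univ_succ] <;> linarith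
  · rw [cyc_eq]
    intro i j
    fin_cases i <;> fin_cases j <;> rfl

/-- The completion of `Ã` of size `7`. -/
theorem trunc_completion (α β : ℝ) (hβ : 0 < β) (hαβ : β < α) :
    ∃ N : Matrix (Fin (5 + 2)) (Fin (5 + 2)) ℂ,
      IsNormalCompletion (truncatedShift (wt α β)) N := by
  have hd : 0 < α * α - β * β := by nlinarith
  obtain ⟨γ, hγ0, hγ⟩ : ∃ γ : ℝ, 0 < γ ∧ γ * γ = α * α - β * β :=
    ⟨Real.sqrt (α * α - β * β), Real.sqrt_pos.2 hd, Real.mul_self_sqrt hd.le⟩
  obtain ⟨g, hg⟩ : ∃ g : ℝ, g * β = α * γ := ⟨α * γ / β, by field_simp⟩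
  obtain ⟨h, hh⟩ : ∃ h : ℝ, h * β = γ * γ := ⟨γ * γ / β, by field_simp⟩
  have e1 : γ * g = α * h := by
    have : (γ * g - α * h) * β = 0 := by linear_combination γ * hg - α * hh
    rcases mul_eq_zero.1 this with h' | h'
    · linarith
    · exact absurd h' hβ.ne'
  have e2 : β * β + g * g = α * α + h * h := by
    have : (β * β + g * g - α * α - h * h) * (β * β) = 0 := by
      have a1 : g * g * (β * β) = α * α * (γ * γ) := by
        linear_combination (g * β + α * γ) * hg
      have a2 : h * h * (β * β) = (γ * γ) * (γ * γ) := by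
        linear_combination (h * β + γ * γ) * hh
      rw [hγ] at a1 a2
      linear_combination a1 - a2
    rcases mul_eq_zero.1 this with h' | h'
    · linarith
    · exact absurd h' (mul_pos hβ hβ).ne'
  refine ⟨(!![0, β, 0, 0, 0, γ, 0; 0, 0, β, 0, 0, 0, 0; 0, 0, 0, α, 0, 0, 0;
    0, 0, 0, 0, β, g, 0; 0, 0, 0, 0, 0, 0, β; 0, 0, γ, 0, 0, 0, g;
    α, 0, 0, h, 0, 0, 0] : Matrix (Fin 7) (Fin 7) ℝ).map Complex.ofReal,
    normal_of_real _ ?_, ?_⟩
  · ext i j
    fin_cases i <;> fin_cases j <;>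
      simp [Matrix.mul_apply, Fin.sum_univ_succ] <;> linarith
  · rw [trunc_eq]
    intro i j
    fin_cases i <;> fin_cases j <;> rfl

theorem normSq_of_mul {u v w z : ℂ} (h : u * star v = star w * z) :
    Complex.normSq u * Complex.normSq v = Complex.normSq w * Complex.normSq z := by
  have h1 := congrArg Complex.normSq h
  rw [Complex.normSq_mul, Complex.normSq_mul, Complex.star_def, Complex.normSq_conj,
    Complex.normSq_conj] at h1
  exact h1

theorem real_eq {x y : ℝ} {b c : ℂ} (h : (x : ℂ) * star (x : ℂ) + b * star b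
    = star (y : ℂ) * (y : ℂ) + star c * c) :
    x * x + Complex.normSq b = y * y + Complex.normSq c := by
  have h1 : ((x * x + Complex.normSq b : ℝ) : ℂ) = ((y * y + Complex.normSq c : ℝ) : ℂ) := by
    push_cast
    rw [← Complex.mul_conj b, ← Complex.mul_conj c]
    have e1 : star (x : ℂ) = x := Complex.conj_ofReal x
    have e2 : star (y : ℂ) = y := Complex.conj_ofReal y
    rw [e1, e2] at h
    rw [Complex.star_def] at h
    rw [h]
    ring
  exact_mod_cast h1

/-- There is no normal completion of `A` of size `5`. -/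
theorem no_cyc_one (α β : ℝ) (hβ : 0 < β) (hαβ : β < α) (N : Matrix (Fin 5) (Fin 5) ℂ)
    (hN : N * Nᴴ = Nᴴ * N)
    (hX : ∀ i j : Fin 4, N (Fin.castAdd 1 i) (Fin.castAdd 1 j) = cyclicShift (wt α β) i j) :
    False := by
  have e00 : N 0 0 = 0 := hX 0 0
  have e01 : N 0 1 = (β : ℂ) := hX 0 1
  have e02 : N 0 2 = 0 := hX 0 2
  have e03 : N 0 3 = 0 := hX 0 3
  have e10 : N 1 0 = 0 := hX 1 0
  have e11 : N 1 1 = 0 := hX 1 1
  have e12 : N 1 2 = (β : ℂ) := hX 1 2
  have e13 : N 1 3 = 0 := hX 1 3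
  have e20 : N 2 0 = 0 := hX 2 0
  have e21 : N 2 1 = 0 := hX 2 1
  have e22 : N 2 2 = 0 := hX 2 2
  have e23 : N 2 3 = (α : ℂ) := hX 2 3
  have e30 : N 3 0 = (β : ℂ) := hX 3 0
  have e31 : N 3 1 = 0 := hX 3 1
  have e32 : N 3 2 = 0 := hX 3 2
  have e33 : N 3 3 = 0 := hX 3 3
  have key : ∀ i j : Fin 5, ∑ l, N i l * star (N j l) = ∑ l, star (N l i) * N l j := by
    intro i j
    have := congrFun (congrFun hN i) j
    simpa only [Matrix.mul_apply, Matrix.conjTranspose_apply] using this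
  simp only [Fin.sum_univ_five] at key
  have n00 : β * β + Complex.normSq (N 0 4) = β * β + Complex.normSq (N 4 0) := by
    refine real_eq ?_
    have := key 0 0
    simpa only [e00, e01, e02, e03, e10, e11, e12, e13, e20, e21, e22, e23, e30, e31, e32, e33, star_zero, mul_zero, zero_mul, zero_add, add_zero] using this
  have n11 : β * β + Complex.normSq (N 1 4) = β * β + Complex.normSq (N 4 1) := by
    refine real_eq ?_
    have := key 1 1
    simpa only [e00, e01, e02, e03, e10, e11, e12, e13, e20, e21, e22, e23, e30, e31, e32, e33, star_zero, mul_zero, zero_mul, zero_add, add_zero] using this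
  have n22 : α * α + Complex.normSq (N 2 4) = β * β + Complex.normSq (N 4 2) := by
    refine real_eq ?_
    have := key 2 2
    simpa only [e00, e01, e02, e03, e10, e11, e12, e13, e20, e21, e22, e23, e30, e31, e32, e33, star_zero, mul_zero, zero_mul, zero_add, add_zero] using this
  have n02 : N 0 4 * star (N 2 4) = star (N 4 0) * N 4 2 := by
    have := key 0 2
    simpa only [e00, e01, e02, e03, e10, e11, e12, e13, e20, e21, e22, e23, e30, e31, e32, e33, star_zero, mul_zero, zero_mul, zero_add, add_zero] using this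
  have n12 : N 1 4 * star (N 2 4) = star (N 4 1) * N 4 2 := by
    have := key 1 2
    simpa only [e00, e01, e02, e03, e10, e11, e12, e13, e20, e21, e22, e23, e30, e31, e32, e33, star_zero, mul_zero, zero_mul, zero_add, add_zero] using this
  have n14 : (β : ℂ) * star (N 4 2) + N 1 4 * star (N 4 4)
      = star (β : ℂ) * N 0 4 + star (N 4 1) * N 4 4 := by
    have := key 1 4
    simpa only [e00, e01, e02, e03, e10, e11, e12, e13, e20, e21, e22, e23, e30, e31, e32, e33, star_zero, mul_zero, zero_mul, zero_add, add_zero] using this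
  have m02 := normSq_of_mul n02
  have m12 := normSq_of_mul n12
  have hd : 0 < α * α - β * β := by nlinarith
  have hb0 : Complex.normSq (N 0 4) = 0 := by
    have h1 : Complex.normSq (N 4 0) = Complex.normSq (N 0 4) := by linarith
    have h2 : Complex.normSq (N 4 2) = Complex.normSq (N 2 4) + (α * α - β * β) := by linarith
    rw [h1, h2] at m02
    have h3 : Complex.normSq (N 0 4) * (α * α - β * β) = 0 := by linarith
    rcases mul_eq_zero.1 h3 with h | h
    · exact h
    · exact absurd h hd.ne'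
  have hb1 : Complex.normSq (N 1 4) = 0 := by
    have h1 : Complex.normSq (N 4 1) = Complex.normSq (N 1 4) := by linarith
    have h2 : Complex.normSq (N 4 2) = Complex.normSq (N 2 4) + (α * α - β * β) := by linarith
    rw [h1, h2] at m12
    have h3 : Complex.normSq (N 1 4) * (α * α - β * β) = 0 := by linarith
    rcases mul_eq_zero.1 h3 with h | h
    · exact h
    · exact absurd h hd.ne'
  have hc1 : Complex.normSq (N 4 1) = 0 := by linarith
  have z0 : N 0 4 = 0 := Complex.normSq_eq_zero.1 hb0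
  have z1 : N 1 4 = 0 := Complex.normSq_eq_zero.1 hb1
  have z2 : N 4 1 = 0 := Complex.normSq_eq_zero.1 hc1
  rw [z0, z1, z2] at n14
  have h4 : (β : ℂ) * star (N 4 2) = 0 := by
    simpa using n14
  have h5 : star (N 4 2) = 0 := by
    rcases mul_eq_zero.1 h4 with h | h
    · exact absurd (Complex.ofReal_eq_zero.1 h) hβ.ne'
    · exact h
  have h6 : N 4 2 = 0 := star_eq_zero.1 h5
  rw [h6, Complex.normSq_zero] at n22
  have := Complex.normSq_nonneg (N 2 4)
  linarith

/-- `A` itself is not normal. -/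
theorem no_cyc_zero (α β : ℝ) (hβ : 0 < β) (hαβ : β < α) (N : Matrix (Fin 4) (Fin 4) ℂ)
    (hN : N * Nᴴ = Nᴴ * N)
    (hX : ∀ i j : Fin 4, N (Fin.castAdd 0 i) (Fin.castAdd 0 j) = cyclicShift (wt α β) i j) :
    False := by
  have e00 : N 0 0 = 0 := hX 0 0
  have e01 : N 0 1 = (β : ℂ) := hX 0 1
  have e02 : N 0 2 = 0 := hX 0 2
  have e03 : N 0 3 = 0 := hX 0 3
  have e10 : N 1 0 = 0 := hX 1 0
  have e11 : N 1 1 = 0 := hX 1 1
  have e12 : N 1 2 = (β : ℂ) := hX 1 2
  have e13 : N 1 3 = 0 := hX 1 3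
  have e20 : N 2 0 = 0 := hX 2 0
  have e21 : N 2 1 = 0 := hX 2 1
  have e22 : N 2 2 = 0 := hX 2 2
  have e23 : N 2 3 = (α : ℂ) := hX 2 3
  have e30 : N 3 0 = (β : ℂ) := hX 3 0
  have e31 : N 3 1 = 0 := hX 3 1
  have e32 : N 3 2 = 0 := hX 3 2
  have e33 : N 3 3 = 0 := hX 3 3
  have key : ∀ i j : Fin 4, ∑ l, N i l * star (N j l) = ∑ l, star (N l i) * N l j := by
    intro i j
    have := congrFun (congrFun hN i) j
    simpa only [Matrix.mul_apply, Matrix.conjTranspose_apply] using this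
  simp only [Fin.sum_univ_four] at key
  have n22 : α * α + Complex.normSq 0 = β * β + Complex.normSq 0 := by
    refine real_eq ?_
    have := key 2 2
    simpa only [e00, e01, e02, e03, e10, e11, e12, e13, e20, e21, e22, e23, e30, e31, e32, e33, star_zero, mul_zero, zero_mul, zero_add, add_zero] using this
  nlinarith

/-- There is no normal completion of `Ã` of size `6`. -/
theorem no_trunc_one (α β : ℝ) (hβ : 0 < β) (hαβ : β < α) (N : Matrix (Fin 6) (Fin 6) ℂ)
    (hN : N * Nᴴ = Nᴴ * N)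
    (hX : ∀ i j : Fin 5, N (Fin.castAdd 1 i) (Fin.castAdd 1 j) = truncatedShift (wt α β) i j) :
    False := by
  have e00 : N 0 0 = 0 := hX 0 0
  have e01 : N 0 1 = (β : ℂ) := hX 0 1
  have e02 : N 0 2 = 0 := hX 0 2
  have e03 : N 0 3 = 0 := hX 0 3
  have e04 : N 0 4 = 0 := hX 0 4
  have e10 : N 1 0 = 0 := hX 1 0
  have e11 : N 1 1 = 0 := hX 1 1
  have e12 : N 1 2 = (β : ℂ) := hX 1 2
  have e13 : N 1 3 = 0 := hX 1 3
  have e14 : N 1 4 = 0 := hX 1 4
  have e20 : N 2 0 = 0 := hX 2 0
  have e21 : N 2 1 = 0 := hX 2 1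
  have e22 : N 2 2 = 0 := hX 2 2
  have e23 : N 2 3 = (α : ℂ) := hX 2 3
  have e24 : N 2 4 = 0 := hX 2 4
  have e30 : N 3 0 = 0 := hX 3 0
  have e31 : N 3 1 = 0 := hX 3 1
  have e32 : N 3 2 = 0 := hX 3 2
  have e33 : N 3 3 = 0 := hX 3 3
  have e34 : N 3 4 = (β : ℂ) := hX 3 4
  have e40 : N 4 0 = 0 := hX 4 0
  have e41 : N 4 1 = 0 := hX 4 1
  have e42 : N 4 2 = 0 := hX 4 2
  have e43 : N 4 3 = 0 := hX 4 3
  have e44 : N 4 4 = 0 := hX 4 4
  have key : ∀ i j : Fin 6, ∑ l, N i l * star (N j l) = ∑ l, star (N l i) * N l j := by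
    intro i j
    have := congrFun (congrFun hN i) j
    simpa only [Matrix.mul_apply, Matrix.conjTranspose_apply] using this
  simp only [Fin.sum_univ_six] at key
  have n00 : β * β + Complex.normSq (N 0 5) = 0 * 0 + Complex.normSq (N 5 0) := by
    refine real_eq ?_
    have := key 0 0
    simpa only [e00, e01, e02, e03, e04, e10, e11, e12, e13, e14, e20, e21, e22, e23, e24, e30, e31, e32, e33, e34, e40, e41, e42, e43, e44, star_zero, mul_zero, zero_mul, zero_add, add_zero, Complex.ofReal_zero] using this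
  have n22 : α * α + Complex.normSq (N 2 5) = β * β + Complex.normSq (N 5 2) := by
    refine real_eq ?_
    have := key 2 2
    simpa only [e00, e01, e02, e03, e04, e10, e11, e12, e13, e14, e20, e21, e22, e23, e24, e30, e31, e32, e33, e34, e40, e41, e42, e43, e44, star_zero, mul_zero, zero_mul, zero_add, add_zero] using this
  have n02 : N 0 5 * star (N 2 5) = star (N 5 0) * N 5 2 := by
    have := key 0 2
    simpa only [e00, e01, e02, e03, e04, e10, e11, e12, e13, e14, e20, e21, e22, e23, e24, e30, e31, e32, e33, e34, e40, e41, e42, e43, e44, star_zero, mul_zero, zero_mul, zero_add, add_zero] using this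
  have m02 := normSq_of_mul n02
  have hd : 0 < α * α - β * β := by nlinarith
  have hb : 0 < β * β := mul_pos hβ hβ
  have h1 : Complex.normSq (N 5 0) = Complex.normSq (N 0 5) + β * β := by linarith
  have h2 : Complex.normSq (N 5 2) = Complex.normSq (N 2 5) + (α * α - β * β) := by linarith
  rw [h1, h2] at m02
  have p1 := Complex.normSq_nonneg (N 0 5)
  have p2 := Complex.normSq_nonneg (N 2 5)
  have q1 := mul_pos hb hd
  have q2 := mul_nonneg p1 hd.le
  have q3 := mul_nonneg hb.le p2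
  nlinarith

/-- `Ã` itself is not normal. -/
theorem no_trunc_zero (α β : ℝ) (hβ : 0 < β) (N : Matrix (Fin 5) (Fin 5) ℂ)
    (hN : N * Nᴴ = Nᴴ * N)
    (hX : ∀ i j : Fin 5, N (Fin.castAdd 0 i) (Fin.castAdd 0 j) = truncatedShift (wt α β) i j) :
    False := by
  have e00 : N 0 0 = 0 := hX 0 0
  have e01 : N 0 1 = (β : ℂ) := hX 0 1
  have e02 : N 0 2 = 0 := hX 0 2
  have e03 : N 0 3 = 0 := hX 0 3
  have e04 : N 0 4 = 0 := hX 0 4
  have e10 : N 1 0 = 0 := hX 1 0
  have e11 : N 1 1 = 0 := hX 1 1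
  have e12 : N 1 2 = (β : ℂ) := hX 1 2
  have e13 : N 1 3 = 0 := hX 1 3
  have e14 : N 1 4 = 0 := hX 1 4
  have e20 : N 2 0 = 0 := hX 2 0
  have e21 : N 2 1 = 0 := hX 2 1
  have e22 : N 2 2 = 0 := hX 2 2
  have e23 : N 2 3 = (α : ℂ) := hX 2 3
  have e24 : N 2 4 = 0 := hX 2 4
  have e30 : N 3 0 = 0 := hX 3 0
  have e31 : N 3 1 = 0 := hX 3 1
  have e32 : N 3 2 = 0 := hX 3 2
  have e33 : N 3 3 = 0 := hX 3 3
  have e34 : N 3 4 = (β : ℂ) := hX 3 4
  have e40 : N 4 0 = 0 := hX 4 0
  have e41 : N 4 1 = 0 := hX 4 1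
  have e42 : N 4 2 = 0 := hX 4 2
  have e43 : N 4 3 = 0 := hX 4 3
  have e44 : N 4 4 = 0 := hX 4 4
  have key : ∀ i j : Fin 5, ∑ l, N i l * star (N j l) = ∑ l, star (N l i) * N l j := by
    intro i j
    have := congrFun (congrFun hN i) j
    simpa only [Matrix.mul_apply, Matrix.conjTranspose_apply] using this
  simp only [Fin.sum_univ_five] at key
  have n00 : β * β + Complex.normSq 0 = 0 * 0 + Complex.normSq 0 := by
    refine real_eq ?_
    have := key 0 0
    simpa only [e00, e01, e02, e03, e04, e10, e11, e12, e13, e14, e20, e21, e22, e23, e24, e30, e31, e32, e33, e34, e40, e41, e42, e43, e44, star_zero, mul_zero, zero_mul, zero_add, add_zero, Complex.ofReal_zero] using this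
  nlinarith

theorem nd_eq_two {m : ℕ} (X : Matrix (Fin m) (Fin m) ℂ)
    (h0 : ¬ ∃ N : Matrix (Fin (m + 0)) (Fin (m + 0)) ℂ, IsNormalCompletion X N)
    (h1 : ¬ ∃ N : Matrix (Fin (m + 1)) (Fin (m + 1)) ℂ, IsNormalCompletion X N)
    (h2 : ∃ N : Matrix (Fin (m + 2)) (Fin (m + 2)) ℂ, IsNormalCompletion X N) : nd X = 2 := by
  unfold nd
  have hne : {k : ℕ | ∃ N : Matrix (Fin (m + k)) (Fin (m + k)) ℂ,
      IsNormalCompletion X N}.Nonempty := ⟨2, h2⟩
  have hle : sInf {k : ℕ | ∃ N : Matrix (Fin (m + k)) (Fin (m + k)) ℂ,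
      IsNormalCompletion X N} ≤ 2 := Nat.sInf_le h2
  have hmem := Nat.sInf_mem hne
  generalize sInf {k : ℕ | ∃ N : Matrix (Fin (m + k)) (Fin (m + k)) ℂ,
      IsNormalCompletion X N} = r at hle hmem ⊢
  interval_cases r
  · exact absurd hmem h0
  · exact absurd hmem h1
  · rfl

/-- **Theorem** (negative answer to Q1).  For all reals `0 < β < α` the weights `(β, β, α, β)` give
`ε(A) = 1`, `nd(A) = 2 = ε(A) + 1`, but `ε(Ã) = nd(Ã) = 2`.  In particular the implication asked
for in Q1 fails (already for `n = 4`). -/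
theorem result :
    (∀ α β : ℝ, 0 < β → β < α →
      eps (cyclicShift (wt α β)) = 1 ∧ nd (cyclicShift (wt α β)) = 2 ∧
      eps (truncatedShift (wt α β)) = 2 ∧ nd (truncatedShift (wt α β)) = 2) ∧
    ¬ (∀ n : ℕ, 4 ≤ n → ∀ a : Fin n → ℂ, nd (cyclicShift a) = eps (cyclicShift a) + 1 →
      nd (truncatedShift a) = eps (truncatedShift a) + 1) := by
  have main : ∀ α β : ℝ, 0 < β → β < α →
      eps (cyclicShift (wt α β)) = 1 ∧ nd (cyclicShift (wt α β)) = 2 ∧
      eps (truncatedShift (wt α β)) = 2 ∧ nd (truncatedShift (wt α β)) = 2 := by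
    intro α β hβ hαβ
    refine ⟨eps_cyc α β hβ hαβ, ?_, eps_trunc α β hβ hαβ, ?_⟩
    · refine nd_eq_two _ ?_ ?_ (cyc_completion α β hβ hαβ)
      · rintro ⟨N, hN, hX⟩
        exact no_cyc_zero α β hβ hαβ N hN hX
      · rintro ⟨N, hN, hX⟩
        exact no_cyc_one α β hβ hαβ N hN hX
    · refine nd_eq_two _ ?_ ?_ (trunc_completion α β hβ hαβ)
      · rintro ⟨N, hN, hX⟩
        exact no_trunc_zero α β hβ N hN hX
      · rintro ⟨N, hN, hX⟩
        exact no_trunc_one α β hβ hαβ N hN hX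
  refine ⟨main, ?_⟩
  intro h
  obtain ⟨h1, h2, h3, h4⟩ := main 2 1 one_pos one_lt_two
  have := h 4 le_rfl (wt 2 1) (by rw [h1, h2])
  rw [h3, h4] at this
  omega

end Pool.Agent.Results.MP_a6de22_an.NormalDefect
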